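import Pool.Agent.Q329.UP.GI

set_option autoImplicit false

/-!
# Two fixed graphs, far from isomorphic, that no small locally symmetric semidefinite program tells
apart

For every `ε > 0` there is a constant `C` such that for every set `V` with `r ≥ C` disjoint
quadruples there are two graphs on `V` with at most `C r` edges such that every bijection of `V`
makes at least `(1/2 - ε) r` errors (edges mapped to nonedges and conversely), but every
semidefinite program of order at most `2 ^ (r / C)` that is symmetric under the even permutations
of each quadruple treats the two graphs in the same way, alone and together with any second graph.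
The two graphs do not depend on the program.

The starting result `FixedPairSDP` has a fixed pair of nonisomorphic graphs (which may differ in few
edges); the starting result `RobustIsoSDP` has pairs which are far from isomorphic, but depend on
the program. The proof combines the unused starting theorem `quad_univ`
(`Pool/Agent/H550R2/Cl/QuadU.lean`: one system of constraints is good for all programs whose
characters touch few blocks) with the graphs of partial solutions of `RobustIsoSDP`.
-/

namespace Pool.Agent.Results.MP_128e7d_lc.RobustFixedPair

open Pool.Agent.H550R2.Lift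

/-- Let `ε > 0`. There is `C > 0` such that for all `r ≥ C`, every finite set `V` and disjoint
quadruples `blk 0, …, blk (r - 1)` of elements of `V` there are graphs `G`, `H` on `V` with at most
`C r` edges such that

* for every permutation `f` of `V` at least `(1/2 - ε) r` unordered pairs `e` are edges of `G` while
  `f e` is no edge of `H`, or the other way around;
* every semidefinite program of order at most `2 ^ (r / C)` for graphs on `V` which is symmetric
  under the even permutations of each `blk i` accepts both or none of `G`, `H`;
* every semidefinite program of order at most `2 ^ (r / C)` for pairs of graphs on `V` which is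
  symmetric under the even permutations of the quadruples `blk i` of the first graph accepts, for
  every graph `F`, both or none of `(G, F)`, `(H, F)`. -/
theorem result (ε : ℝ) (hε : 0 < ε) : ∃ C : ℕ, 0 < C ∧ ∀ r : ℕ, C ≤ r →
    ∀ (V : Type) [Finite V] (blk : Fin r → (Fin 4 ↪ V)),
    (Pairwise fun i j => Disjoint (Set.range (blk i)) (Set.range (blk j))) →
    ∃ G H : SimpleGraph V, G.edgeSet.ncard ≤ C * r ∧ H.edgeSet.ncard ≤ C * r ∧
      (∀ f : Equiv.Perm V, (1 / 2 - ε) * r ≤
        ({e : Sym2 V | ¬ (e ∈ G.edgeSet ↔ Sym2.map f e ∈ H.edgeSet)}.ncard : ℝ)) ∧
      (∀ (D : Type) [Fintype D] [DecidableEq D] (P : SDP (Sym2 V) D),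
        (∀ i, P.SymOn edPerm (blk i)) → Fintype.card D ≤ 2 ^ (r / C) →
        (P.Acc (gvec G) ↔ P.Acc (gvec H))) ∧
      (∀ (D : Type) [Fintype D] [DecidableEq D] (P : SDP (Sym2 (V ⊕ V)) D),
        (∀ i, P.SymOn edPerm (fstB (blk i))) → Fintype.card D ≤ 2 ^ (r / C) →
        ∀ F : SimpleGraph V, (P.Acc (gvec (G ⊕g F)) ↔ P.Acc (gvec (H ⊕g F)))) := by
  obtain ⟨C, hC0, hC⟩ := Pool.Agent.Q329.UP.univ_pair ε hε
  refine ⟨C, hC0, fun r hr V _ blk hd => ?_⟩
  obtain ⟨G, H, h1, h2, -, -, h3, h4, h5⟩ := hC r hr V blk hd
  refine ⟨G, H, ?_, ?_, fun f => h3 f, h4, h5⟩
  · have h6 : (G.edgeSet.ncard : ℝ) ≤ C * r := h1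
    exact_mod_cast h6
  · have h6 : (H.edgeSet.ncard : ℝ) ≤ C * r := h2
    exact_mod_cast h6

end Pool.Agent.Results.MP_128e7d_lc.RobustFixedPair
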