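import Pool.Agent.Q329.OP.Main

/-!
# Recognising the graphs whose maximal open packings all have the same size is coNP-hard

The definitions used in the statement are in `Pool/Agent/Q329/OP/Defs.lean`:

* `OpenPacking G S`, `MaxOpenPacking G S`: the finite set `S` of vertices is an open packing, a
  maximal open packing; `EqualSizes G`: all maximal open packings of `G` have the same cardinality;
* `Recog m`: `m` is the adjacency matrix of a graph with `EqualSizes`.

`InNP`, `InP`, `InCoNP`, `CoNPHardP`, `NPHardP` (from `Pool/Agent/NPC`) are the classes NP, P, coNP
of languages, and hardness of a decision problem for coNP and NP under polynomial-time many-one
reductions.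

Proof. A formula in 3CNF with variables `i` and clauses `j` is mapped to a bipartite graph. On one
side there are the vertices `z`, `y_i`, a vertex for every literal and a vertex for every clause; on
the other side there is a vertex for each set of a family of sets of vertices of the first side: all
clauses with `z`; every clause with one of its literals and `z`; `y_i` with the two literals of `i`;
`z` with the two literals of `i`. Every such set contains exactly one of the vertices `z`, `y_i`;
these get a leaf each. So the sets and leaves are divided into cliques of the relation of sharing a
neighbour, one at every vertex `z`, `y_i`, each with a simplicial vertex (the leaf), and a maximal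
open packing has exactly one vertex from each of them, and exactly one vertex among `y_i` and the
literals of `i`. Its size depends only on whether it has a vertex among `z` and the clauses. It has
none exactly if its literals satisfy the formula.
-/

set_option autoImplicit false

namespace Pool.Agent.Results.MP_563097_lc.OpenPackings

open Pool.Agent.Q329.OP Pool.Agent.NPC

/-- Deciding whether all maximal open packings of a graph have the same size is coNP-hard; if a
polynomial-time algorithm decides it then P = NP. -/
theorem result : CoNPHardP Recog ∧
    ((∃ D : List Bool → List Bool, PolyTime D ∧ ∀ (n : ℕ) (G : SimpleGraph (Fin n)),
      D (bits (R671.adjMatrix G)) = [true] ↔ EqualSizes G) →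
      ∀ L : Set (List Bool), InNP L → InP L) :=
  ⟨hard.toCoNPHardP, fun ⟨_, hD, h⟩ L hL => collapse hD h L hL⟩

end Pool.Agent.Results.MP_563097_lc.OpenPackings
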